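import Mathlib
import Pool.Agent.Y777.AM.Z2

/-!
# The depth of the terms in relations between multiple zeta values of the same weight

Consider a relation between multiple zeta values of weight `k` with coefficients at most `C ^ k`,
all of whose terms have first argument at least `δ k`, or at least `ε k` arguments `≥ 2`. The number
of terms is arbitrary. If the relation has a term of depth at most `r` (with first argument at least
`δ k`), then it has more than `N` terms with first argument at least `δ k` and depth smaller than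
`K`, where `K` depends on `r, N, δ, ε, C` only.

The proof uses the subspace theorem (helper files `Pool.Agent.Y777.AL`, `Pool.Agent.Y777.AM`, after
`Pool.Agent.Y760.ZG`).
-/

set_option autoImplicit false

namespace Pool.Agent.Results.MP_cbe134_nt.SmallDepthTerms

/-- `trunc [s_1, ..., s_r] m` is the sum of `∏ n_i ^ (-s_i)` over `m > n_1 > ... > n_r ≥ 1` -/
noncomputable def trunc : List ℕ → ℕ → ℝ
  | [], _ => 1
  | s :: l, m => ∑ j ∈ Finset.Ico 1 m, trunc l j / (j : ℝ) ^ s

/-- the multiple zeta value `ζ(s_1, ..., s_r)`, the sum of `∏ n_i ^ (-s_i)` over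
`n_1 > ... > n_r ≥ 1` -/
noncomputable def mzv : List ℕ → ℝ
  | [] => 1
  | s :: l => ∑' m : ℕ, trunc l (m + 1) / ((m + 1 : ℕ) : ℝ) ^ s

/-- the admissible indices of weight `k` -/
def Admissible (k : ℕ) (w : List ℕ) : Prop :=
  (∀ s ∈ w, 1 ≤ s) ∧ (∀ s ∈ w.head?, 2 ≤ s) ∧ w.sum = k

/-- the number of arguments `≥ 2` -/
def height (w : List ℕ) : ℕ := w.countP (fun s => decide (2 ≤ s))

lemma trunc_eq (w : List ℕ) : ∀ m, trunc w m = Pool.Agent.Y760.ZG.hr w m := by
  induction w with
  | nil => intro m; rw [trunc, Pool.Agent.Y760.ZG.hr_nil]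
  | cons s w ih =>
    intro m
    rw [trunc, Pool.Agent.Y760.ZG.hr_cons]
    exact Finset.sum_congr rfl fun j _ => by rw [ih]

lemma mzv_eq (w : List ℕ) : mzv w = Pool.Agent.Y760.ZG.mz w := by
  cases w with
  | nil => rw [mzv, Pool.Agent.Y760.ZG.mz]
  | cons s w =>
    rw [mzv, Pool.Agent.Y760.ZG.mz]
    exact tsum_congr fun m => by rw [trunc_eq]

/-- Let `β_1, ..., β_l` be real algebraic numbers, linearly independent over `ℚ`, let `N`, `r` be
numbers, `δ, ε > 0` and `C` real. There are `B > 1`, `K` and `k0` such that for all `k ≥ k0`, all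
sets `V` of at most `N` admissible indices of weight `k` with first argument at least `δ k`, all
sets `H` of admissible indices of weight `k` each of which has at least `ε k` arguments `≥ 2`, or
depth at least `K` and first argument at least `δ k`, all coefficients `a_v = ∑ a_{v j} β_j` with
integers `a_{v j}` of absolute value at most `C ^ k`, such that `a_v ≠ 0` for some `v` in `V` of
depth at most `r`, and all real numbers `b_h` of absolute value at most `C ^ k`:
`|∑_V a_v ζ(v) - ∑_H b_h ζ(h)| > B ^ (-k)`. -/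
theorem result {l : ℕ} (β : Fin l → ℝ) (hβ : ∀ j, IsAlgebraic ℚ (β j))
    (hli : LinearIndependent ℚ β) (N r : ℕ) (δ ε C : ℝ) (hδ : 0 < δ) (hε : 0 < ε) :
    ∃ B : ℝ, 1 < B ∧ ∃ K k0 : ℕ, ∀ k : ℕ, k0 ≤ k → ∀ V H : Finset (List ℕ), V.card ≤ N →
      (∀ v ∈ V, Admissible k v ∧ ∀ s ∈ v.head?, δ * k ≤ s) →
      (∀ h ∈ H, Admissible k h ∧
        (ε * k ≤ height h ∨ (K ≤ h.length ∧ ∀ s ∈ h.head?, δ * k ≤ s))) →
      ∀ (a : List ℕ → Fin l → ℤ) (b : List ℕ → ℝ), (∃ v ∈ V, v.length ≤ r ∧ a v ≠ 0) →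
      (∀ v ∈ V, ∀ j, |(a v j : ℝ)| ≤ C ^ k) → (∀ h ∈ H, |b h| ≤ C ^ k) →
      (B ^ k)⁻¹ < |∑ v ∈ V, (∑ j, a v j * β j) * mzv v - ∑ h ∈ H, b h * mzv h| := by
  obtain ⟨B, hB, K, k0, h⟩ := Pool.Agent.Y777.AM.H2' β hβ hli N r δ ε C hδ hε
  refine ⟨B, hB, K, k0, fun k hk V H hVN hV hH a b ha haC hbC => ?_⟩
  have h1 := h k hk V H hVN (fun v hv => ⟨(hV v hv).1.1, (hV v hv).1.2.2, (hV v hv).2⟩)
    (fun v hv => ⟨(hH v hv).1.1, (hH v hv).1.2.2, (hH v hv).1.2.1, (hH v hv).2⟩) a b (by
      obtain ⟨v, hv, h2, h3⟩ := ha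
      refine ⟨v, hv, h2, ?_⟩
      by_contra hcon
      push Not at hcon
      exact h3 (funext hcon)) haC hbC
  refine lt_of_lt_of_eq h1 ?_
  congr 2
  · refine Finset.sum_congr rfl fun v _ => ?_
    rw [Finset.sum_mul, mzv_eq]
    exact Finset.sum_congr rfl fun j _ => by ring
  · exact Finset.sum_congr rfl fun v _ => by rw [mzv_eq]

end Pool.Agent.Results.MP_cbe134_nt.SmallDepthTerms
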